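import Pool.Agent.U856.BM.Stm1

/-!
# Project BM, package CO

Continuity of the billiard orbits in the initial state, the time and the table.
-/

set_option autoImplicit false

open Set Filter Topology ComplexConjugate

namespace Pool.Agent.U505.BM.CO

open Pool.Agent.U856.BM

theorem orb_nonneg {P : Set ℂ} {x e y f : ℂ} {t : ℝ} (h : Orb P x e t y f) : 0 ≤ t := by
  induction h with
  | start t ht _ => exact ht
  | bounce t s u y f n _ hs hu _ _ _ ih => linarith

theorem dt_add (n z w : ℂ) : dt n (z + w) = dt n z + dt n w := by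
  simp [dt]; ring

theorem dt_smul (n z : ℂ) (r : ℝ) : dt n (r • z) = r * dt n z := by
  simp [dt]; ring

theorem dt_rf (n f : ℂ) (hn : dt n n = 1) : dt n (rf n f) = - dt n f := by
  have : dt n (rf n f) = dt n f - 2 * dt n f * dt n n := by
    simp [dt, rf]; ring
  rw [this, hn]; ring

theorem affine_lt {c : ℝ} {n z f : ℂ} {s r : ℝ} (h0 : dt n z < c) (h1 : dt n (z + s • f) < c)
    (hr : 0 ≤ r) (hrs : r ≤ s) : dt n (z + r • f) < c := by
  rw [dt_add, dt_smul] at h1 ⊢
  rcases le_total (dt n f) 0 with h | h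
  · nlinarith
  · nlinarith

theorem cont_nS (j : Fin 5) : Continuous fun α : ℝ => nS α j := by
  fin_cases j
  · simpa [nS] using (continuous_const : Continuous fun _ : ℝ => (-1 : ℂ))
  · simpa [nS] using (continuous_const : Continuous fun _ : ℝ => (-Complex.I : ℂ))
  · simpa [nS] using (continuous_const : Continuous fun _ : ℝ => (1 : ℂ))
  · have : Continuous fun α : ℝ => Complex.equivRealProdCLM.symm (Real.sin α, Real.cos α) :=
      Complex.equivRealProdCLM.symm.continuous.comp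
        (Real.continuous_sin.prodMk Real.continuous_cos)
    exact this
  · simpa [nS] using (continuous_const : Continuous fun _ : ℝ => (Complex.I : ℂ))

theorem cont_oS (j : Fin 5) : Continuous fun q : ℝ × ℝ × ℝ => oS q.1 q.2.1 q.2.2 j := by
  fin_cases j <;> simp [oS] <;> fun_prop

theorem cat_dt {X : Type} [TopologicalSpace X] {g h : X → ℂ} {q : X} (hg : ContinuousAt g q)
    (hh : ContinuousAt h q) : ContinuousAt (fun q => dt (g q) (h q)) q := by
  unfold dt
  exact ((Complex.continuous_re.continuousAt.comp hg).mul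
    (Complex.continuous_re.continuousAt.comp hh)).add
    ((Complex.continuous_im.continuousAt.comp hg).mul
    (Complex.continuous_im.continuousAt.comp hh))

theorem cat_rf {X : Type} [TopologicalSpace X] {g h : X → ℂ} {q : X} (hg : ContinuousAt g q)
    (hh : ContinuousAt h q) : ContinuousAt (fun q => rf (g q) (h q)) q := by
  unfold rf
  exact hh.sub (((continuousAt_const).mul (cat_dt hg hh)).smul hg)

/-- parameters, time and state -/
abbrev Q : Type := ℝ × ℝ × ℝ × ℝ × ℝ × ℂ × ℂ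

theorem of_near {C : Q → Prop} {a b v α t : ℝ} {x e : ℂ} (h : ∀ᶠ q in 𝓝 ((a, b, v, α, t, x, e) : Q), C q) :
    ∃ δ : ℝ, 0 < δ ∧ ∀ (a' b' v' α' t' : ℝ) (x' e' : ℂ),
      |a' - a| < δ → |b' - b| < δ → |v' - v| < δ → |α' - α| < δ → |t' - t| < δ →
      ‖x' - x‖ < δ → ‖e' - e‖ < δ → C (a', b', v', α', t', x', e') := by
  obtain ⟨δ, hδ, H⟩ := Metric.eventually_nhds_iff.1 h
  refine ⟨δ, hδ, fun a' b' v' α' t' x' e' h1 h2 h3 h4 h5 h6 h7 => H ?_⟩
  simp only [Prod.dist_eq, max_lt_iff, Real.dist_eq]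
  exact ⟨h1, h2, h3, h4, h5, by rwa [dist_eq_norm], by rwa [dist_eq_norm]⟩

theorem t_CO : S_SD → S_CO := by
  intro SD a b v α x e y f t hok he h
  have cn : ∀ (k : Fin 5) (q : Q), ContinuousAt (fun q : Q => nS q.2.2.2.1 k) q := fun k q =>
    ((cont_nS k).comp (by fun_prop)).continuousAt
  have co : ∀ (k : Fin 5) (q : Q), ContinuousAt (fun q : Q => oS q.1 q.2.1 q.2.2.1 k) q := fun k q =>
    ((cont_oS k).comp (f := fun q : Q => (q.1, q.2.1, q.2.2.1)) (by fun_prop)).continuousAt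
  induction h with
  | start t ht hs =>
    intro ε hε
    have hS := (SD a b v α hok).1
    have h0 : ∀ k, dt (nS α k) x < oS a b v k := by
      have := (hS _).1 (hs 0 ⟨le_refl _, ht⟩)
      simpa using this
    have h1 : ∀ k, dt (nS α k) (x + t • e) < oS a b v k := (hS _).1 (hs t ⟨ht, le_refl _⟩)
    have c0 : ∀ q : Q, ContinuousAt (fun q : Q => q.2.2.2.2.2.1) q := fun q => by fun_prop
    have c1 : ∀ q : Q, ContinuousAt (fun q : Q => q.2.2.2.2.2.1 + q.2.2.2.2.1 • q.2.2.2.2.2.2) q :=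
      fun q => by fun_prop
    have c2 : ∀ q : Q, ContinuousAt (fun q : Q => q.2.2.2.2.2.2) q := fun q => by fun_prop
    have e1 : ∀ᶠ q in 𝓝 ((a, b, v, α, t, x, e) : Q), ∀ k : Fin 5,
        dt (nS q.2.2.2.1 k) q.2.2.2.2.2.1 < oS q.1 q.2.1 q.2.2.1 k :=
      eventually_all.2 fun k => (cat_dt (cn k _) (c0 _)).eventually_lt (co k _) (h0 k)
    have e2 : ∀ᶠ q in 𝓝 ((a, b, v, α, t, x, e) : Q), ∀ k : Fin 5,
        dt (nS q.2.2.2.1 k) (q.2.2.2.2.2.1 + q.2.2.2.2.1 • q.2.2.2.2.2.2) <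
          oS q.1 q.2.1 q.2.2.1 k :=
      eventually_all.2 fun k => (cat_dt (cn k _) (c1 _)).eventually_lt (co k _) (h1 k)
    have e3 : ∀ᶠ q in 𝓝 ((a, b, v, α, t, x, e) : Q),
        ‖(q.2.2.2.2.2.1 + q.2.2.2.2.1 • q.2.2.2.2.2.2) - (x + t • e)‖ < ε :=
      ((c1 _).sub continuousAt_const).norm.eventually_lt continuousAt_const (by simpa using hε)
    have e4 : ∀ᶠ q in 𝓝 ((a, b, v, α, t, x, e) : Q), ‖q.2.2.2.2.2.2 - e‖ < ε :=
      ((c2 _).sub continuousAt_const).norm.eventually_lt continuousAt_const (by simpa using hε)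
    obtain ⟨δ, hδ, H⟩ := of_near (e1.and (e2.and (e3.and e4)))
    refine ⟨δ, hδ, fun a' b' v' α' t' x' e' hok' ha hb hv hα ht' ht0 hx he' _ => ?_⟩
    obtain ⟨g1, g2, g3, g4⟩ := H a' b' v' α' t' x' e' ha hb hv hα ht' hx he'
    simp only at g1 g2 g3 g4
    refine ⟨x' + t' • e', e', Orb.start t' ht0 ?_, g3, g4⟩
    intro s hs'
    exact ((SD a' b' v' α' hok').1 _).2 fun k => affine_lt (g1 k) (g2 k) hs'.1 hs'.2
  | bounce t s u y f n horb hs hu hr1 hsp hr2 ih =>
    intro ε hε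
    obtain ⟨hS1, hS2, hS3⟩ := SD a b v α hok
    obtain ⟨j, rfl, hj, hk⟩ := hS3 _ _ hsp
    have hnn : dt (nS α j) (nS α j) = 1 := hsp.2.1
    have h0 : ∀ k, dt (nS α k) y < oS a b v k := by
      have := (hS1 _).1 (hr1 0 ⟨le_refl _, hs⟩)
      simpa using this
    have hf : 0 < dt (nS α j) f := by
      have h1 := h0 j
      rw [dt_add, dt_smul] at hj
      have : 0 < s * dt (nS α j) f := by linarith
      exact (pos_iff_pos_of_mul_pos this).1 hs
    have hend : ∀ k, dt (nS α k) (y + s • f + u • rf (nS α j) f) < oS a b v k :=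
      (hS1 _).1 (hr2 u ⟨hu, le_refl _⟩)
    have hse : (oS a b v j - dt (nS α j) y) / dt (nS α j) f = s := by
      rw [dt_add, dt_smul] at hj
      rw [div_eq_iff hf.ne']
      linarith
    set q0 : Q := (a, b, v, α, t + s + u, y, f) with hq0
    -- the functions
    have cy : ContinuousAt (fun q : Q => q.2.2.2.2.2.1) q0 := by fun_prop
    have cf : ContinuousAt (fun q : Q => q.2.2.2.2.2.2) q0 := by fun_prop
    have cT : ContinuousAt (fun q : Q => q.2.2.2.2.1) q0 := by fun_prop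
    have cs : ContinuousAt (fun q : Q => (oS q.1 q.2.1 q.2.2.1 j - dt (nS q.2.2.2.1 j) q.2.2.2.2.2.1) /
        dt (nS q.2.2.2.1 j) q.2.2.2.2.2.2) q0 :=
      ((co j _).sub (cat_dt (cn j _) cy)).div (cat_dt (cn j _) cf) hf.ne'
    obtain ⟨S, hSdef⟩ : ∃ S : Q → ℝ, S = fun q : Q =>
        (oS q.1 q.2.1 q.2.2.1 j - dt (nS q.2.2.2.1 j) q.2.2.2.2.2.1) /
        dt (nS q.2.2.2.1 j) q.2.2.2.2.2.2 := ⟨_, rfl⟩
    have hS0 : S q0 = s := by rw [hSdef]; exact hse
    rw [← hSdef] at cs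
    have cu : ContinuousAt (fun q : Q => q.2.2.2.2.1 - t - S q) q0 :=
      (cT.sub continuousAt_const).sub cs
    have cz : ContinuousAt (fun q : Q => q.2.2.2.2.2.1 + S q • q.2.2.2.2.2.2) q0 :=
      cy.add (cs.smul cf)
    have crf : ContinuousAt (fun q : Q => rf (nS q.2.2.2.1 j) q.2.2.2.2.2.2) q0 :=
      cat_rf (cn j _) cf
    have cw : ContinuousAt (fun q : Q => q.2.2.2.2.2.1 + S q • q.2.2.2.2.2.2 +
        (q.2.2.2.2.1 - t - S q) • rf (nS q.2.2.2.1 j) q.2.2.2.2.2.2) q0 :=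
      cz.add (cu.smul crf)
    have hu0 : t + s + u - t - S q0 = u := by rw [hS0]; ring
    have e1 : ∀ᶠ q in 𝓝 q0, ∀ k : Fin 5,
        dt (nS q.2.2.2.1 k) q.2.2.2.2.2.1 < oS q.1 q.2.1 q.2.2.1 k :=
      eventually_all.2 fun k => (cat_dt (cn k _) cy).eventually_lt (co k _) (h0 k)
    have e2 : ∀ᶠ q in 𝓝 q0, 0 < dt (nS q.2.2.2.1 j) q.2.2.2.2.2.2 :=
      continuousAt_const.eventually_lt (cat_dt (cn j _) cf) hf
    have e3 : ∀ᶠ q in 𝓝 q0, 0 < S q :=
      continuousAt_const.eventually_lt cs (by rw [hS0]; exact hs)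
    have e4 : ∀ᶠ q in 𝓝 q0, 0 < q.2.2.2.2.1 - t - S q :=
      continuousAt_const.eventually_lt cu (by show 0 < t + s + u - t - S q0; rw [hu0]; exact hu)
    have e5 : ∀ᶠ q in 𝓝 q0, ∀ k : Fin 5, k ≠ j →
        dt (nS q.2.2.2.1 k) (q.2.2.2.2.2.1 + S q • q.2.2.2.2.2.2) < oS q.1 q.2.1 q.2.2.1 k := by
      refine eventually_all.2 fun k => ?_
      by_cases hkj : k = j
      · exact Eventually.of_forall fun q hq => absurd hkj hq
      · refine ((cat_dt (cn k _) cz).eventually_lt (co k _) ?_).mono fun q hq _ => hq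
        show dt (nS α k) (y + S q0 • f) < oS a b v k
        rw [hS0]
        exact hk k hkj
    have e6 : ∀ᶠ q in 𝓝 q0, ∀ k : Fin 5,
        dt (nS q.2.2.2.1 k) (q.2.2.2.2.2.1 + S q • q.2.2.2.2.2.2 +
          (q.2.2.2.2.1 - t - S q) • rf (nS q.2.2.2.1 j) q.2.2.2.2.2.2) < oS q.1 q.2.1 q.2.2.1 k := by
      refine eventually_all.2 fun k => (cat_dt (cn k _) cw).eventually_lt (co k _) ?_
      show dt (nS α k) (y + S q0 • f + (t + s + u - t - S q0) • rf (nS α j) f) < oS a b v k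
      rw [hu0, hS0]
      exact hend k
    have e7 : ∀ᶠ q in 𝓝 q0, ‖(q.2.2.2.2.2.1 + S q • q.2.2.2.2.2.2 +
          (q.2.2.2.2.1 - t - S q) • rf (nS q.2.2.2.1 j) q.2.2.2.2.2.2) -
          (y + s • f + u • rf (nS α j) f)‖ < ε := by
      refine (cw.sub continuousAt_const).norm.eventually_lt continuousAt_const ?_
      show ‖(y + S q0 • f + (t + s + u - t - S q0) • rf (nS α j) f) -
        (y + s • f + u • rf (nS α j) f)‖ < ε
      rw [hu0, hS0]
      simpa using hε
    have e8 : ∀ᶠ q in 𝓝 q0, ‖rf (nS q.2.2.2.1 j) q.2.2.2.2.2.2 - rf (nS α j) f‖ < ε := by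
      refine (crf.sub continuousAt_const).norm.eventually_lt continuousAt_const ?_
      show ‖rf (nS α j) f - rf (nS α j) f‖ < ε
      simpa using hε
    obtain ⟨ρ, hρ, H⟩ := of_near (e1.and (e2.and (e3.and (e4.and (e5.and (e6.and (e7.and e8)))))))
    obtain ⟨δ, hδ, IH⟩ := ih ρ hρ
    refine ⟨min δ ρ, lt_min hδ hρ, fun a' b' v' α' t' x' e' hok' ha hb hv hα ht' ht0 hx he' hen => ?_⟩
    obtain ⟨y', f', horb', hy', hf'⟩ := IH a' b' v' α' t x' e' hok' (ha.trans_le (min_le_left _ _))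
      (hb.trans_le (min_le_left _ _)) (hv.trans_le (min_le_left _ _))
      (hα.trans_le (min_le_left _ _)) (by simpa using hδ) (orb_nonneg horb)
      (hx.trans_le (min_le_left _ _)) (he'.trans_le (min_le_left _ _)) hen
    obtain ⟨g1, g2, g3, g4, g5, g6, g7, g8⟩ := H a' b' v' α' t' y' f'
      (ha.trans_le (min_le_right _ _)) (hb.trans_le (min_le_right _ _))
      (hv.trans_le (min_le_right _ _)) (hα.trans_le (min_le_right _ _))
      (ht'.trans_le (min_le_right _ _)) hy' hf'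
    obtain ⟨s', hs'⟩ : ∃ s', s' = S (a', b', v', α', t', y', f') := ⟨_, rfl⟩
    simp only [← hs'] at g1 g2 g3 g4 g5 g6 g7 g8
    have hs'' : s' * dt (nS α' j) f' = oS a' b' v' j - dt (nS α' j) y' := by
      rw [hs', hSdef]
      exact div_mul_cancel₀ _ g2.ne'
    obtain ⟨hS1', hS2', -⟩ := SD a' b' v' α' hok'
    have heq : dt (nS α' j) (y' + s' • f') = oS a' b' v' j := by
      rw [dt_add, dt_smul]; linarith
    have hsp' : SidePt (Tb a' b' v' α') (y' + s' • f') (nS α' j) := hS2' _ j heq g5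
    have hnn' : dt (nS α' j) (nS α' j) = 1 := hsp'.2.1
    refine ⟨y' + s' • f' + (t' - t - s') • rf (nS α' j) f', rf (nS α' j) f', ?_, g7, g8⟩
    have ht'' : t + s' + (t' - t - s') = t' := by ring
    rw [← ht'']
    have hmain := Orb.bounce (P := Tb a' b' v' α') (x := x') (e := e') t s' (t' - t - s') y' f'
      (nS α' j) horb' g3 g4 ?_ hsp' ?_
    · rw [ht'']
      rw [ht''] at hmain
      exact hmain
    · intro r hr
      refine (hS1' _).2 fun k => ?_
      by_cases hkj : k = j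
      · subst hkj
        rw [dt_add, dt_smul]
        nlinarith [hr.2]
      · exact affine_lt (g1 k) (g5 k hkj) hr.1 hr.2.le
    · intro r hr
      refine (hS1' _).2 fun k => ?_
      by_cases hkj : k = j
      · subst hkj
        rw [dt_add, dt_smul, dt_rf _ _ hnn', heq]
        nlinarith [hr.1]
      · exact affine_lt (g5 k hkj) (g6 k) hr.1.le hr.2

end Pool.Agent.U505.BM.CO
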