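import Pool.Agent.U856.BM.Stm2

/-!
# Project BM, package EX

Exits and entries of the chords of a generic table.
-/

set_option autoImplicit false

open Set Filter Topology ComplexConjugate

namespace Pool.Agent.U505.BM.EX

open Pool.Agent.U856.BM

theorem forall5 {P : Fin 5 → Prop} (h0 : P 0) (h1 : P 1) (h2 : P 2) (h3 : P 3) (h4 : P 4) :
    ∀ k, P k := by
  intro k; fin_cases k <;> assumption

/-! ### The combinatorial core -/

section core

variable {A B a b c1 c2 w : ℝ} {S V : Fin 5 → ℝ}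

/-- the data in the normalized orientation -/
structure Dat (A B a b c1 c2 : ℝ) (S V : Fin 5 → ℝ) : Prop where
  hA : A ≠ 0
  hB : B ≠ 0
  c1p : 0 < c1
  c1b : c1 < b
  c2p : 0 < c2
  c2a : c2 < a
  S0 : S 0 = -A
  S1 : S 1 = -B
  S2 : S 2 = A
  S3 : 0 < S 3 ↔ 0 < c1 * A + c2 * B
  S4 : S 4 = B
  V0 : V 0 = a * B
  V1 : V 1 = a * B - b * A
  V2 : V 2 = -(b * A)
  V3 : V 3 = -(c1 * A)
  V4 : V 4 = c2 * B

theorem core1 (D : Dat A B a b c1 c2 S V) (h1 : ∃ k, V k < w) (h2 : ∃ k, w < V k) :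
    (∃ j, 0 < S j ∧ V j < w ∧ w < V (j + 1)) ∨ ∃ k, w = V k ∧ 0 < S k ∧ 0 < S (k - 1) := by
  obtain ⟨hA, hB, c1p, c1b, c2p, c2a, S0, S1, S2, S3, S4, V0, V1, V2, V3, V4⟩ := D
  have lo : ∀ m : ℝ, (∀ k, m ≤ V k) → m < w := fun m hm => by
    obtain ⟨k, hk⟩ := h1
    exact (hm k).trans_lt hk
  have hi : ∀ m : ℝ, (∀ k, V k ≤ m) → w < m := fun m hm => by
    obtain ⟨k, hk⟩ := h2
    exact hk.trans_le (hm k)
  have e01 : (0 : Fin 5) + 1 = 1 := rfl
  have e12 : (1 : Fin 5) + 1 = 2 := rfl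
  have e23 : (2 : Fin 5) + 1 = 3 := rfl
  have e34 : (3 : Fin 5) + 1 = 4 := rfl
  have e40 : (4 : Fin 5) + 1 = 0 := rfl
  have f0 : (0 : Fin 5) - 1 = 4 := rfl
  have f1 : (1 : Fin 5) - 1 = 0 := rfl
  have f2 : (2 : Fin 5) - 1 = 1 := rfl
  have f3 : (3 : Fin 5) - 1 = 2 := rfl
  have f4 : (4 : Fin 5) - 1 = 3 := rfl
  rcases lt_or_gt_of_ne hA with hA | hA <;> rcases lt_or_gt_of_ne hB with hB | hB
  · -- A < 0, B < 0 : exits 0, 1
    have g1 : b * A < c1 * A := mul_lt_mul_of_neg_right c1b hA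
    have g2 : c1 * A < 0 := mul_neg_of_pos_of_neg c1p hA
    have g3 : a * B < c2 * B := mul_lt_mul_of_neg_right c2a hB
    have g4 : c2 * B < 0 := mul_neg_of_pos_of_neg c2p hB
    have l := lo (a * B) (forall5 (by linarith) (by linarith) (by linarith) (by linarith)
      (by linarith))
    have r := hi (-(b * A)) (forall5 (by linarith) (by linarith) (by linarith) (by linarith)
      (by linarith))
    rcases lt_trichotomy w (V 1) with h | h | h
    · exact Or.inl ⟨0, by rw [S0]; linarith, by linarith, by rw [e01]; exact h⟩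
    · exact Or.inr ⟨1, h, by rw [S1]; linarith, by rw [f1, S0]; linarith⟩
    · exact Or.inl ⟨1, by rw [S1]; linarith, h, by rw [e12]; linarith⟩
  · -- A < 0, B > 0 : exits (3), 4, 0
    have g1 : b * A < c1 * A := mul_lt_mul_of_neg_right c1b hA
    have g2 : c1 * A < 0 := mul_neg_of_pos_of_neg c1p hA
    have g3 : c2 * B < a * B := mul_lt_mul_of_pos_right c2a hB
    have g4 : 0 < c2 * B := mul_pos c2p hB
    have r := hi (a * B - b * A) (forall5 (by linarith) (by linarith) (by linarith) (by linarith)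
      (by linarith))
    rcases le_or_gt (c1 * A + c2 * B) 0 with hC | hC
    · have l := lo (c2 * B) (forall5 (by linarith) (by linarith) (by linarith) (by linarith)
        (by linarith))
      rcases lt_trichotomy w (V 0) with h | h | h
      · exact Or.inl ⟨4, by rw [S4]; exact hB, by linarith, by rw [e40]; exact h⟩
      · exact Or.inr ⟨0, h, by rw [S0]; linarith, by rw [f0, S4]; exact hB⟩
      · exact Or.inl ⟨0, by rw [S0]; linarith, h, by rw [e01]; linarith⟩
    · have s3 : 0 < S 3 := S3.2 hC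
      have l := lo (-(c1 * A)) (forall5 (by linarith) (by linarith) (by linarith) (by linarith)
        (by linarith))
      rcases lt_trichotomy w (V 0) with h | h | h
      · rcases lt_trichotomy w (V 4) with h' | h' | h'
        · exact Or.inl ⟨3, s3, by linarith, by rw [e34]; exact h'⟩
        · exact Or.inr ⟨4, h', by rw [S4]; exact hB, by rw [f4]; exact s3⟩
        · exact Or.inl ⟨4, by rw [S4]; exact hB, h', by rw [e40]; exact h⟩
      · exact Or.inr ⟨0, h, by rw [S0]; linarith, by rw [f0, S4]; exact hB⟩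
      · exact Or.inl ⟨0, by rw [S0]; linarith, h, by rw [e01]; linarith⟩
  · -- A > 0, B < 0 : exits 1, 2, (3)
    have g1 : c1 * A < b * A := mul_lt_mul_of_pos_right c1b hA
    have g2 : 0 < c1 * A := mul_pos c1p hA
    have g3 : a * B < c2 * B := mul_lt_mul_of_neg_right c2a hB
    have g4 : c2 * B < 0 := mul_neg_of_pos_of_neg c2p hB
    have l := lo (a * B - b * A) (forall5 (by linarith) (by linarith) (by linarith) (by linarith)
      (by linarith))
    rcases le_or_gt (c1 * A + c2 * B) 0 with hC | hC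
    · have r := hi (-(c1 * A)) (forall5 (by linarith) (by linarith) (by linarith) (by linarith)
        (by linarith))
      rcases lt_trichotomy w (V 2) with h | h | h
      · exact Or.inl ⟨1, by rw [S1]; linarith, by linarith, by rw [e12]; exact h⟩
      · exact Or.inr ⟨2, h, by rw [S2]; exact hA, by rw [f2, S1]; linarith⟩
      · exact Or.inl ⟨2, by rw [S2]; exact hA, h, by rw [e23]; linarith⟩
    · have s3 : 0 < S 3 := S3.2 hC
      have r := hi (c2 * B) (forall5 (by linarith) (by linarith) (by linarith) (by linarith)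
        (by linarith))
      rcases lt_trichotomy w (V 2) with h | h | h
      · exact Or.inl ⟨1, by rw [S1]; linarith, by linarith, by rw [e12]; exact h⟩
      · exact Or.inr ⟨2, h, by rw [S2]; exact hA, by rw [f2, S1]; linarith⟩
      · rcases lt_trichotomy w (V 3) with h' | h' | h'
        · exact Or.inl ⟨2, by rw [S2]; exact hA, h, by rw [e23]; exact h'⟩
        · exact Or.inr ⟨3, h', s3, by rw [f3, S2]; exact hA⟩
        · exact Or.inl ⟨3, s3, h', by rw [e34]; linarith⟩
  · -- A > 0, B > 0 : exits 2, 3, 4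
    have g1 : c1 * A < b * A := mul_lt_mul_of_pos_right c1b hA
    have g2 : 0 < c1 * A := mul_pos c1p hA
    have g3 : c2 * B < a * B := mul_lt_mul_of_pos_right c2a hB
    have g4 : 0 < c2 * B := mul_pos c2p hB
    have s3 : 0 < S 3 := S3.2 (by linarith)
    have l := lo (-(b * A)) (forall5 (by linarith) (by linarith) (by linarith) (by linarith)
      (by linarith))
    have r := hi (a * B) (forall5 (by linarith) (by linarith) (by linarith) (by linarith)
      (by linarith))
    rcases lt_trichotomy w (V 3) with h | h | h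
    · exact Or.inl ⟨2, by rw [S2]; exact hA, by linarith, by rw [e23]; exact h⟩
    · exact Or.inr ⟨3, h, s3, by rw [f3, S2]; exact hA⟩
    · rcases lt_trichotomy w (V 4) with h' | h' | h'
      · exact Or.inl ⟨3, s3, h, by rw [e34]; exact h'⟩
      · exact Or.inr ⟨4, h', by rw [S4]; exact hB, by rw [f4]; exact s3⟩
      · exact Or.inl ⟨4, by rw [S4]; exact hB, h', by rw [e40]; linarith⟩

/-- the exit intervals are ordered -/
theorem core_mono (D : Dat A B a b c1 c2 S V) : ∀ j, 0 < S j → V j < V (j + 1) := by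
  obtain ⟨hA, hB, c1p, c1b, c2p, c2a, S0, S1, S2, S3, S4, V0, V1, V2, V3, V4⟩ := D
  refine forall5 ?_ ?_ ?_ ?_ ?_ <;> intro h
  · show V 0 < V 1
    nlinarith
  · show V 1 < V 2
    nlinarith
  · show V 2 < V 3
    nlinarith
  · show V 3 < V 4
    have := S3.1 h
    linarith
  · show V 4 < V 0
    nlinarith

/-- a point is in at most one exit interval, also counting closed intervals from the left -/
theorem core2 (D : Dat A B a b c1 c2 S V) : ∀ j j', 0 < S j → V j < w → w < V (j + 1) →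
    0 < S j' → V j' < w → w < V (j' + 1) → j = j' := by
  obtain ⟨hA, hB, c1p, c1b, c2p, c2a, S0, S1, S2, S3, S4, V0, V1, V2, V3, V4⟩ := D
  have key : ∀ j j', j < j' → 0 < S j → V j < w → w < V (j + 1) →
      0 < S j' → V j' < w → w < V (j' + 1) → False := by
    refine forall5 (forall5 ?_ ?_ ?_ ?_ ?_) (forall5 ?_ ?_ ?_ ?_ ?_) (forall5 ?_ ?_ ?_ ?_ ?_)
      (forall5 ?_ ?_ ?_ ?_ ?_) (forall5 ?_ ?_ ?_ ?_ ?_) <;> intro hj h1 h2 h3 h4 h5 h6 <;>
      first
      | exact absurd hj (by decide)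
      | skip
    · change w < V 1 at h3; linarith
    · linarith
    · -- 0, 3
      change w < V 4 at h6
      rw [S0] at h1
      have h7 := S3.1 h4
      have hB' : 0 < B := by
        by_contra hh
        push Not at hh
        nlinarith
      nlinarith
    · change w < V 0 at h6; linarith
    · change w < V 2 at h3; linarith
    · -- 1, 3
      change w < V 2 at h3
      rw [S1] at h1
      have h7 := S3.1 h4
      have hA' : 0 < A := by
        by_contra hh
        push Not at hh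
        nlinarith
      nlinarith
    · linarith
    · change w < V 3 at h3; linarith
    · -- 2, 4
      change w < V 3 at h3
      rw [S2] at h1
      rw [S4] at h4
      nlinarith [mul_pos c1p h1, mul_pos c2p h4]
    · change w < V 4 at h3; linarith
  intro j j' h1 h2 h3 h4 h5 h6
  rcases lt_trichotomy j j' with h | h | h
  · exact (key j j' h h1 h2 h3 h4 h5 h6).elim
  · exact h
  · exact (key j' j h h4 h5 h6 h1 h2 h3).elim

theorem core4 (D : Dat A B a b c1 c2 S V) (k j : Fin 5) (hw : w = V k) (hk : 0 < S k)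
    (hk' : 0 < S (k - 1)) (hj : 0 < S j) (h1 : V j < w) (h2 : w < V (j + 1)) : False := by
  have m1 := core_mono D (k - 1) hk'
  have m2 := core_mono D k hk
  rw [sub_add_cancel] at m1
  obtain ⟨w', hw1, hw2⟩ := exists_between (show max (V (k - 1)) (V j) < w from max_lt (by rw [hw]; exact m1) h1)
  obtain ⟨w'', hw3, hw4⟩ := exists_between (show w < min (V (k + 1)) (V (j + 1)) from
    lt_min (by rw [hw]; exact m2) h2)
  have e1 : k - 1 = j := core2 D (w := w') (k - 1) j hk' ((le_max_left _ _).trans_lt hw1)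
    (by rw [sub_add_cancel, ← hw]; exact hw2) hj ((le_max_right _ _).trans_lt hw1) (hw2.trans h2)
  have e2 : k = j := core2 D (w := w'') k j hk (by rw [← hw]; exact hw3)
    (hw4.trans_le (min_le_left _ _)) hj (h1.trans hw3) (hw4.trans_le (min_le_right _ _))
  rw [← e2] at e1
  have : ∀ k : Fin 5, k - 1 ≠ k := by decide
  exact this k e1

variable {σ u : ℝ} {U : Fin 5 → ℝ}

theorem bridge (hσ : σ = 1 ∨ σ = -1) (D : Dat A B a b c1 c2 S (fun k => σ * U k)) (j : Fin 5)
    (h : 0 < S j) : (min (U j) (U (j + 1)) < u ∧ u < max (U j) (U (j + 1))) ↔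
      (σ * U j < σ * u ∧ σ * u < σ * U (j + 1)) := by
  have m : σ * U j < σ * U (j + 1) := core_mono D j h
  rcases hσ with rfl | rfl
  · have m' : U j < U (j + 1) := by linarith
    rw [min_eq_left m'.le, max_eq_right m'.le]
    constructor <;> rintro ⟨h1, h2⟩ <;> constructor <;> linarith
  · have m' : U (j + 1) < U j := by linarith
    rw [min_eq_right m'.le, max_eq_left m'.le]
    constructor <;> rintro ⟨h1, h2⟩ <;> constructor <;> linarith

theorem main1 (hσ : σ = 1 ∨ σ = -1) (D : Dat A B a b c1 c2 S (fun k => σ * U k))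
    (h1 : ∃ k, U k < u) (h2 : ∃ k, u < U k) :
    (∃ j, 0 < S j ∧ min (U j) (U (j + 1)) < u ∧ u < max (U j) (U (j + 1))) ∨
      ∃ k, u = U k ∧ 0 < S k ∧ 0 < S (k - 1) := by
  obtain ⟨k, hk⟩ := h1
  obtain ⟨k', hk'⟩ := h2
  have hσ0 : σ ≠ 0 := by rcases hσ with rfl | rfl <;> norm_num
  have H := core1 (w := σ * u) D
    (by
      rcases hσ with rfl | rfl
      · exact ⟨k, by simpa using hk⟩
      · exact ⟨k', by simpa using hk'⟩)
    (by
      rcases hσ with rfl | rfl
      · exact ⟨k', by simpa using hk'⟩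
      · exact ⟨k, by simpa using hk⟩)
  rcases H with ⟨j, hj, h3, h4⟩ | ⟨k, h3, h4, h5⟩
  · exact Or.inl ⟨j, hj, (bridge hσ D j hj).2 ⟨h3, h4⟩⟩
  · exact Or.inr ⟨k, mul_left_cancel₀ hσ0 h3, h4, h5⟩

theorem main2 (hσ : σ = 1 ∨ σ = -1) (D : Dat A B a b c1 c2 S (fun k => σ * U k)) (j j' : Fin 5)
    (h1 : 0 < S j) (h2 : min (U j) (U (j + 1)) < u) (h3 : u < max (U j) (U (j + 1)))
    (h4 : 0 < S j') (h5 : min (U j') (U (j' + 1)) < u) (h6 : u < max (U j') (U (j' + 1))) :
    j = j' := by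
  obtain ⟨g1, g2⟩ := (bridge hσ D j h1).1 ⟨h2, h3⟩
  obtain ⟨g3, g4⟩ := (bridge hσ D j' h4).1 ⟨h5, h6⟩
  exact core2 D j j' h1 g1 g2 h4 g3 g4

theorem main4 (hσ : σ = 1 ∨ σ = -1) (D : Dat A B a b c1 c2 S (fun k => σ * U k)) (k j : Fin 5)
    (hw : u = U k) (hk : 0 < S k) (hk' : 0 < S (k - 1)) (h1 : 0 < S j)
    (h2 : min (U j) (U (j + 1)) < u) (h3 : u < max (U j) (U (j + 1))) : False := by
  obtain ⟨g1, g2⟩ := (bridge hσ D j h1).1 ⟨h2, h3⟩
  exact core4 D k j (w := σ * u) (by rw [hw]) hk hk' h1 g1 g2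

end core

/-! ### Geometry -/

section geo

/-- the orientation of a state -/
noncomputable def sg (i : St) : ℝ := if i.2 then 1 else -1

theorem sg_pm (i : St) : sg i = 1 ∨ sg i = -1 := by
  unfold sg; split_ifs <;> simp

theorem dt_G (d : ℂ) (i : St) (x : ℂ) :
    dt d (G i x) = x.re * dt d (G i 1) + x.im * dt d (G i Complex.I) := by
  obtain ⟨w, τ⟩ := i
  cases τ <;> simp [dt, G] <;> ring

theorem cr_G (d : ℂ) (i : St) (x : ℂ) :
    cr d (G i x) = sg i * (x.im * dt d (G i 1) - x.re * dt d (G i Complex.I)) := by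
  obtain ⟨w, τ⟩ := i
  cases τ <;> simp [dt, cr, G, sg] <;> ring

theorem dt_neg (d x : ℂ) : dt d (-x) = -dt d x := by simp [dt]; ring

theorem cr_neg (d x : ℂ) : cr d (-x) = -cr d x := by simp [cr]; ring

theorem nS0 (α : ℝ) : nS α 0 = -1 := rfl
theorem nS1 (α : ℝ) : nS α 1 = -Complex.I := rfl
theorem nS2 (α : ℝ) : nS α 2 = 1 := rfl
theorem nS3 (α : ℝ) : nS α 3 = ⟨Real.sin α, Real.cos α⟩ := rfl
theorem nS4 (α : ℝ) : nS α 4 = Complex.I := rfl

theorem nS_unit (α : ℝ) : ∀ j, dt (nS α j) (nS α j) = 1 := by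
  refine forall5 ?_ ?_ ?_ ?_ ?_
  · simp [nS0, dt]
  · simp [nS1, dt]
  · simp [nS2, dt]
  · simp only [nS3, dt]
    nlinarith [Real.sin_sq_add_cos_sq α]
  · simp [nS4, dt]

/-- reflection in terms of complex multiplication -/
theorem refl_eq {n : ℂ} (hn : dt n n = 1) (x : ℂ) : x - (2 * dt n x) • n = -(n ^ 2 * conj x) := by
  have h : n.re * n.re + n.im * n.im = 1 := hn
  apply Complex.ext
  · simp [dt, pow_two]
    linear_combination (-x.re) * h
  · simp [dt, pow_two]
    linear_combination (-x.im) * h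

theorem G_rs (α : ℝ) (j : Fin 5) (i : St) (x : ℂ) :
    G (rs α j i) x = G i (x - (2 * dt (nS α j) x) • nS α j) := by
  rw [refl_eq (nS_unit α j)]
  obtain ⟨w, τ⟩ := i
  cases τ
  · simp [G, rs]; ring
  · simp [G, rs]; ring

theorem rs_rs (α : ℝ) (j : Fin 5) (i : St) : rs α j (rs α j i) = i := by
  obtain ⟨w, τ⟩ := i
  have h : nS α j * conj (nS α j) = 1 := by
    rw [Complex.mul_conj, Complex.normSq_apply]
    have := nS_unit α j
    unfold dt at this
    rw [this]; simp
  have h2 : nS α j ^ 2 * conj (nS α j) ^ 2 = 1 := by rw [← mul_pow, h, one_pow]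
  cases τ
  · simp only [rs, Prod.mk.injEq]
    refine ⟨?_, by simp⟩
    simp
    linear_combination w * h2
  · simp only [rs, Prod.mk.injEq]
    refine ⟨?_, by simp⟩
    simp
    linear_combination w * h2

theorem dt_on {a b v α : ℝ} (hs : Real.sin α ≠ 0) (hc : Real.cos α ≠ 0) : ∀ j,
    dt (nS α j) (vS a b v α j) = oS a b v j ∧ dt (nS α j) (vS a b v α (j + 1)) = oS a b v j := by
  refine forall5 ?_ ?_ ?_ ?_ ?_
  · show dt (nS α 0) (vS a b v α 0) = oS a b v 0 ∧ dt (nS α 0) (vS a b v α 1) = oS a b v 0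
    simp [nS, vS, oS, dt]
  · show dt (nS α 1) (vS a b v α 1) = oS a b v 1 ∧ dt (nS α 1) (vS a b v α 2) = oS a b v 1
    simp [nS, vS, oS, dt]
  · show dt (nS α 2) (vS a b v α 2) = oS a b v 2 ∧ dt (nS α 2) (vS a b v α 3) = oS a b v 2
    simp [nS, vS, oS, dt]
  · show dt (nS α 3) (vS a b v α 3) = oS a b v 3 ∧ dt (nS α 3) (vS a b v α 4) = oS a b v 3
    simp [nS, vS, oS, dt]
    constructor <;> field_simp
  · show dt (nS α 4) (vS a b v α 4) = oS a b v 4 ∧ dt (nS α 4) (vS a b v α 0) = oS a b v 4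
    simp [nS, vS, oS, dt]

theorem dt_smul' (d : ℂ) (r : ℝ) (x : ℂ) : dt d (r • x) = r * dt d x := by simp [dt]; ring

/-- the transversal coordinate of a reflected point -/
theorem uu_rs (a b α : ℝ) (j : Fin 5) (i : St) (x : ℂ) :
    uu a b (rs α j i) x = uu a b i x - 2 * dt (nS α j) x * cr (dd a b) (G i (nS α j)) := by
  unfold uu
  rw [G_rs, cr_G, cr_G _ _ x, cr_G _ _ (nS α j)]
  simp
  ring

theorem dt_rs (a b α : ℝ) (j : Fin 5) (i : St) :
    dt (dd a b) (G (rs α j i) (nS α j)) = -dt (dd a b) (G i (nS α j)) := by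
  rw [G_rs, nS_unit, dt_G, dt_G _ _ (nS α j)]
  simp
  ring

theorem cr_rs (a b α : ℝ) (j : Fin 5) (i : St) :
    cr (dd a b) (G (rs α j i) (nS α j)) = -cr (dd a b) (G i (nS α j)) := by
  rw [G_rs, nS_unit, cr_G, cr_G _ _ (nS α j)]
  simp
  ring

end geo

/-! ### Algebraic numbers -/

section alg

theorem alg_parts {y : ℂ} {N : ℕ} (hN : 0 < N) (h : y ^ N = 1) :
    IsAlgebraic ℚ y.re ∧ IsAlgebraic ℚ y.im := by
  have h1 : IsAlgebraic ℚ y := IsAlgebraic.of_pow hN (by rw [h]; exact isAlgebraic_one)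
  have h2 : IsAlgebraic ℚ (conj y) :=
    IsAlgebraic.of_pow hN (by rw [← map_pow, h, map_one]; exact isAlgebraic_one)
  have hI : IsAlgebraic ℚ Complex.I :=
    IsAlgebraic.of_pow (n := 4) (by norm_num) (by rw [Complex.I_pow_four]; exact isAlgebraic_one)
  have m1 : y ∈ algebraicClosure ℚ ℂ := mem_algebraicClosure_iff.2 h1
  have m2 : conj y ∈ algebraicClosure ℚ ℂ := mem_algebraicClosure_iff.2 h2
  have m3 : Complex.I ∈ algebraicClosure ℚ ℂ := mem_algebraicClosure_iff.2 hI
  have m4 : (2 : ℂ) ∈ algebraicClosure ℚ ℂ := by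
    exact_mod_cast natCast_mem (algebraicClosure ℚ ℂ) 2
  have inj : Function.Injective (algebraMap ℝ ℂ) := (algebraMap ℝ ℂ).injective
  constructor
  · rw [← isAlgebraic_algebraMap_iff (R := ℚ) (S := ℝ) (A := ℂ) inj]
    have e : algebraMap ℝ ℂ y.re = (y + conj y) / 2 := Complex.re_eq_add_conj y
    rw [e]
    exact mem_algebraicClosure_iff.1 (div_mem (add_mem m1 m2) m4)
  · rw [← isAlgebraic_algebraMap_iff (R := ℚ) (S := ℝ) (A := ℂ) inj]
    have e : algebraMap ℝ ℂ y.im = (y - conj y) / (2 * Complex.I) := Complex.im_eq_sub_conj y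
    rw [e]
    exact mem_algebraicClosure_iff.1 (div_mem (sub_mem m1 m2) (mul_mem m4 m3))

theorem gen_ne {a b v : ℝ} (hG : Gen a b v) {y : ℂ} (h1 : IsAlgebraic ℚ y.re)
    (h2 : IsAlgebraic ℚ y.im) (hy : y ≠ 0) : a * y.re + b * y.im ≠ 0 := by
  intro h0
  have hF := hG (MvPolynomial.C y.re * MvPolynomial.X 0 + MvPolynomial.C y.im * MvPolynomial.X 1)
    (fun m => by
      rw [MvPolynomial.coeff_add, MvPolynomial.coeff_C_mul, MvPolynomial.coeff_C_mul,
        MvPolynomial.coeff_X, MvPolynomial.coeff_X]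
      refine (h1.mul ?_).add (h2.mul ?_)
      · split_ifs
        · exact isAlgebraic_one
        · exact isAlgebraic_zero
      · split_ifs
        · exact isAlgebraic_one
        · exact isAlgebraic_zero)
    (by simp; linarith)
  apply hy
  apply Complex.ext
  · have := congrArg (MvPolynomial.coeff (Finsupp.single 0 1)) hF
    rw [MvPolynomial.coeff_add, MvPolynomial.coeff_C_mul, MvPolynomial.coeff_C_mul,
      MvPolynomial.coeff_X, MvPolynomial.coeff_X] at this
    have hne : (Finsupp.single (1 : Fin 3) 1 : Fin 3 →₀ ℕ) ≠ Finsupp.single 0 1 := by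
      intro e
      have := congrArg (fun f => f 0) e
      simp at this
    rw [if_pos rfl, if_neg hne] at this
    simpa using this
  · have := congrArg (MvPolynomial.coeff (Finsupp.single 1 1)) hF
    rw [MvPolynomial.coeff_add, MvPolynomial.coeff_C_mul, MvPolynomial.coeff_C_mul,
      MvPolynomial.coeff_X, MvPolynomial.coeff_X] at this
    have hne : (Finsupp.single (0 : Fin 3) 1 : Fin 3 →₀ ℕ) ≠ Finsupp.single 1 1 := by
      intro e
      have := congrArg (fun f => f 0) e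
      simp at this
    rw [if_pos rfl, if_neg hne] at this
    simpa using this

theorem nS_pow {α : ℝ} {h q : ℕ} (hq : 0 < q) (hα : α = Real.pi * h / q) :
    ∀ j, (nS α j) ^ (4 * q) = 1 := by
  refine forall5 ?_ ?_ ?_ ?_ ?_
  · rw [nS0, pow_mul]; norm_num
  · rw [nS1, pow_mul, neg_pow, Complex.I_pow_four]; norm_num
  · rw [nS2, one_pow]
  · have e : nS α 3 = Complex.I * Complex.exp (-(α : ℂ) * Complex.I) := by
      rw [Complex.exp_mul_I, nS3]
      rw [← Complex.ofReal_neg, ← Complex.ofReal_cos, ← Complex.ofReal_sin]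
      apply Complex.ext
      · simp
        exact (Complex.sin_ofReal_re α).symm
      · simp
        exact (Complex.cos_ofReal_re α).symm
    rw [e, mul_pow, pow_mul, Complex.I_pow_four, one_pow, one_mul, ← Complex.exp_nat_mul]
    rw [Complex.exp_eq_one_iff]
    refine ⟨-(2 * h), ?_⟩
    have hq0 : (q : ℂ) ≠ 0 := by exact_mod_cast hq.ne'
    rw [hα]
    push_cast
    field_simp
    ring
  · rw [nS4, pow_mul, Complex.I_pow_four, one_pow]

theorem G_pow {q : ℕ} {i : St} (hi : Al q i) {n : ℂ} (hn : n ^ (4 * q) = 1) :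
    (G i n) ^ (4 * q) = 1 := by
  obtain ⟨w, τ⟩ := i
  have hw : w ^ (2 * q) = 1 := hi
  have hw' : w ^ (4 * q) = 1 := by
    have : 4 * q = 2 * q * 2 := by ring
    rw [this, pow_mul, hw, one_pow]
  cases τ
  · simp only [G]
    rw [if_neg (by simp), mul_pow, hw', one_mul, ← map_pow, hn, map_one]
  · simp only [G, if_true]
    rw [mul_pow, hw', hn, one_mul]

theorem Al_rs {α : ℝ} {h q : ℕ} (hq : 0 < q) (hα : α = Real.pi * h / q) (j : Fin 5) {i : St}
    (hi : Al q i) : Al q (rs α j i) := by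
  have hn := nS_pow hq hα j
  obtain ⟨w, τ⟩ := i
  have hw : w ^ (2 * q) = 1 := hi
  have hn2 : (nS α j ^ 2) ^ (2 * q) = 1 := by
    rw [← pow_mul, ← hn]; congr 1; ring
  have hev : Even (2 * q) := even_two_mul q
  show (rs α j (w, τ)).1 ^ (2 * q) = 1
  cases τ
  · simp only [rs]
    rw [if_neg (by simp), hev.neg_pow, mul_pow, hw, one_mul, ← map_pow, hn2, map_one]
  · simp only [rs, if_true]
    rw [hev.neg_pow, mul_pow, hw, hn2, one_mul]

end alg

/-! ### Assembly -/

section asm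

variable {a b v α : ℝ} {h q : ℕ}

theorem ok_facts (H : Ok a b v α) : 0 < Real.sin α ∧ 0 < Real.cos α ∧ 0 < v / Real.cos α ∧
    v / Real.cos α < b ∧ 0 < v / Real.sin α ∧ v / Real.sin α < a ∧ 0 < a ∧ 0 < b := by
  obtain ⟨h1, h2, h3, h4, h5, h6, h7, h8⟩ := H
  have hc : 0.66 < Real.cos α := by
    have := Real.one_sub_sq_div_two_le_cos (x := α)
    nlinarith
  have hs : 0.6 < Real.sin α := by
    have g := Real.sin_gt_sub_cube (x := α) (by linarith)
    have g2 : α ^ 3 ≤ 0.82 ^ 3 := pow_le_pow_left₀ (by linarith) h8.le 3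
    norm_num at g2 ⊢
    linarith
  have hv : 0 < v := by linarith
  refine ⟨by linarith, by linarith, div_pos hv (by linarith), ?_, div_pos hv (by linarith), ?_,
    by linarith, by linarith⟩
  · rw [div_lt_iff₀ (by linarith)]
    nlinarith
  · rw [div_lt_iff₀ (by linarith)]
    nlinarith

theorem nine (H : Rat a b v α h q) {i : St} (hi : Al q i) (j : Fin 5) :
    dt (dd a b) (G i (nS α j)) ≠ 0 := by
  obtain ⟨hok, hG, hq, hq5, hα⟩ := H
  obtain ⟨-, -, -, -, -, -, ha, hb⟩ := ok_facts hok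
  have hy : (G i (nS α j)) ^ (4 * q) = 1 := G_pow hi (nS_pow (by omega) hα j)
  have hN : 0 < 4 * q := by omega
  obtain ⟨g1, g2⟩ := alg_parts hN hy
  have hy0 : G i (nS α j) ≠ 0 := by
    intro e
    rw [e, zero_pow (by omega)] at hy
    exact zero_ne_one hy
  have g3 := gen_ne hG g1 g2 hy0
  intro h0
  apply g3
  have hL : 0 < √(a ^ 2 + b ^ 2) := Real.sqrt_pos.2 (by positivity)
  have : dt (dd a b) (G i (nS α j)) =
      (a * (G i (nS α j)).re + b * (G i (nS α j)).im) / √(a ^ 2 + b ^ 2) := by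
    unfold dt dd
    simp only
    ring
  rw [this, div_eq_zero_iff] at h0
  rcases h0 with h0 | h0
  · exact h0
  · exact absurd h0 hL.ne'

theorem dat (H : Rat a b v α h q) {i : St} (hi : Al q i) {ε : ℝ} (hε : ε = 1 ∨ ε = -1) :
    Dat (ε * dt (dd a b) (G i 1)) (ε * dt (dd a b) (G i Complex.I)) a b (v / Real.cos α)
      (v / Real.sin α) (fun j => ε * dt (dd a b) (G i (nS α j)))
      (fun k => (ε * sg i) * uu a b i (vS a b v α k)) := by
  obtain ⟨hs, hc, g1, g2, g3, g4, ha, hb⟩ := ok_facts H.1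
  have hε0 : ε ≠ 0 := by rcases hε with rfl | rfl <;> norm_num
  have hv : 0 < v := by have := H.1.2.2.2.2.1; linarith
  have hσ : sg i * sg i = 1 := by rcases sg_pm i with e | e <;> rw [e] <;> norm_num
  refine ⟨mul_ne_zero hε0 (nine H hi 2), mul_ne_zero hε0 (nine H hi 4), g1, g2, g3, g4,
    ?_, ?_, ?_, ?_, ?_, ?_, ?_, ?_, ?_, ?_⟩
  · show ε * dt (dd a b) (G i (nS α 0)) = _
    rw [nS0, dt_G]; simp
  · show ε * dt (dd a b) (G i (nS α 1)) = _
    rw [nS1, dt_G]; simp
  · rfl
  · show 0 < ε * dt (dd a b) (G i (nS α 3)) ↔ _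
    have e : v / Real.cos α * (ε * dt (dd a b) (G i 1)) +
        v / Real.sin α * (ε * dt (dd a b) (G i Complex.I)) =
        (v / (Real.sin α * Real.cos α)) * (ε * dt (dd a b) (G i (nS α 3))) := by
      rw [nS3, dt_G _ _ ⟨Real.sin α, Real.cos α⟩]
      simp only
      field_simp
    rw [e]
    exact (mul_pos_iff_of_pos_left (by positivity)).symm
  · rfl
  · show (ε * sg i) * uu a b i (vS a b v α 0) = _
    have e1 : (vS a b v α 0).re = -a := rfl
    have e2 : (vS a b v α 0).im = 0 := rfl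
    unfold uu
    rw [cr_G, e1, e2]
    linear_combination (ε * a * dt (dd a b) (G i Complex.I)) * hσ
  · show (ε * sg i) * uu a b i (vS a b v α 1) = _
    have e1 : (vS a b v α 1).re = -a := rfl
    have e2 : (vS a b v α 1).im = -b := rfl
    unfold uu
    rw [cr_G, e1, e2]
    linear_combination (ε * (a * dt (dd a b) (G i Complex.I) - b * dt (dd a b) (G i 1))) * hσ
  · show (ε * sg i) * uu a b i (vS a b v α 2) = _
    have e1 : (vS a b v α 2).re = 0 := rfl
    have e2 : (vS a b v α 2).im = -b := rfl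
    unfold uu
    rw [cr_G, e1, e2]
    linear_combination (-ε * b * dt (dd a b) (G i 1)) * hσ
  · show (ε * sg i) * uu a b i (vS a b v α 3) = _
    have e1 : (vS a b v α 3).re = 0 := rfl
    have e2 : (vS a b v α 3).im = -(v / Real.cos α) := rfl
    unfold uu
    rw [cr_G, e1, e2]
    linear_combination (-ε * (v / Real.cos α) * dt (dd a b) (G i 1)) * hσ
  · show (ε * sg i) * uu a b i (vS a b v α 4) = _
    have e1 : (vS a b v α 4).re = -(v / Real.sin α) := rfl
    have e2 : (vS a b v α 4).im = 0 := rfl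
    unfold uu
    rw [cr_G, e1, e2]
    linear_combination (ε * (v / Real.sin α) * dt (dd a b) (G i Complex.I)) * hσ

/-- the entry sides -/
def Ent (a b v α : ℝ) (i : St) (u : ℝ) (j : Fin 5) : Prop :=
  dt (dd a b) (G i (nS α j)) < 0 ∧
    min (uu a b i (vS a b v α j)) (uu a b i (vS a b v α (j + 1))) < u ∧
    u < max (uu a b i (vS a b v α j)) (uu a b i (vS a b v α (j + 1)))

/-- the transversal coordinates of the end points of the side after the reflection -/
theorem uu_side (hs : Real.sin α ≠ 0) (hc : Real.cos α ≠ 0) (i : St) (j : Fin 5) :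
    uu a b (rs α j i) (vS a b v α j) =
      uu a b i (vS a b v α j) - 2 * oS a b v j * cr (dd a b) (G i (nS α j)) ∧
    uu a b (rs α j i) (vS a b v α (j + 1)) =
      uu a b i (vS a b v α (j + 1)) - 2 * oS a b v j * cr (dd a b) (G i (nS α j)) := by
  obtain ⟨h1, h2⟩ := dt_on (a := a) (b := b) (v := v) hs hc j
  constructor
  · rw [uu_rs, h1]
  · rw [uu_rs, h2]

theorem stq_iff (hs : Real.sin α ≠ 0) (hc : Real.cos α ≠ 0) (i : St) (u : ℝ) (z : St × ℝ) :
    Stq a b v α z (i, u) ↔ ∃ j, Ent a b v α i u j ∧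
      z = (rs α j i, u - 2 * oS a b v j * cr (dd a b) (G i (nS α j))) := by
  constructor
  · rintro ⟨j, ⟨h1, h2, h3⟩, h4⟩
    obtain ⟨i', u'⟩ := z
    simp only [Prod.mk.injEq] at h4
    obtain ⟨h5, h6⟩ := h4
    simp only at h1 h2 h3
    have h7 : i' = rs α j i := by rw [h5, rs_rs]
    subst h7
    have h8 : u' = u - 2 * oS a b v j * cr (dd a b) (G i (nS α j)) := by
      rw [cr_rs] at h6
      linarith
    obtain ⟨e1, e2⟩ := uu_side (a := a) (b := b) (v := v) hs hc i j
    rw [e1, e2, min_sub_sub_right, h8] at h2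
    rw [e1, e2, max_sub_sub_right, h8] at h3
    rw [dt_rs] at h1
    exact ⟨j, ⟨by linarith, by linarith, by linarith⟩, by rw [h8]⟩
  · rintro ⟨j, ⟨h1, h2, h3⟩, rfl⟩
    obtain ⟨e1, e2⟩ := uu_side (a := a) (b := b) (v := v) hs hc i j
    refine ⟨j, ⟨?_, ?_, ?_⟩, ?_⟩
    · simp only
      rw [dt_rs]; linarith
    · simp only
      rw [e1, e2, min_sub_sub_right]; linarith
    · simp only
      rw [e1, e2, max_sub_sub_right]; linarith
    · simp only [Prod.mk.injEq]
      refine ⟨(rs_rs α j i).symm, ?_⟩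
      rw [cr_rs]; ring

theorem inR_of {i : St} {u : ℝ} {j : Fin 5}
    (h2 : min (uu a b i (vS a b v α j)) (uu a b i (vS a b v α (j + 1))) < u)
    (h3 : u < max (uu a b i (vS a b v α j)) (uu a b i (vS a b v α (j + 1)))) :
    InR a b v α i u := by
  refine ⟨?_, ?_⟩
  · rcases min_lt_iff.1 h2 with h | h
    · exact ⟨_, h⟩
    · exact ⟨_, h⟩
  · rcases lt_max_iff.1 h3 with h | h
    · exact ⟨_, h⟩
    · exact ⟨_, h⟩

theorem t_EX : S_EX := by
  intro a b v α h q H i u hi
  obtain ⟨hs, hc, -⟩ := ok_facts H.1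
  have hq : 0 < q := by have := H.2.2.2.1; omega
  have hα := H.2.2.2.2
  have D1 := dat H hi (ε := 1) (Or.inl rfl)
  have D2 := dat H hi (ε := -1) (Or.inr rfl)
  have σ1 : (1 : ℝ) * sg i = 1 ∨ (1 : ℝ) * sg i = -1 := by
    rcases sg_pm i with e | e <;> rw [e] <;> norm_num
  have σ2 : (-1 : ℝ) * sg i = 1 ∨ (-1 : ℝ) * sg i = -1 := by
    rcases sg_pm i with e | e <;> rw [e] <;> norm_num
  refine ⟨?_, ?_, ?_, ?_, ?_, ?_, ?_, ?_, nine H hi⟩
  · rintro ⟨h1, h2⟩
    rcases main1 σ1 D1 h1 h2 with ⟨j, g1, g2, g3⟩ | ⟨k, g1, g2, g3⟩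
    · exact Or.inl ⟨j, by simpa using g1, g2, g3⟩
    · exact Or.inr ⟨k, g1, by simpa using g2, by simpa using g3⟩
  · rintro j j' ⟨g1, g2, g3⟩ ⟨g4, g5, g6⟩
    exact main2 σ1 D1 j j' (by simpa using g1) g2 g3 (by simpa using g4) g5 g6
  · rintro j ⟨g1, g2, g3⟩
    obtain ⟨e1, e2⟩ := uu_side (a := a) (b := b) (v := v) hs.ne' hc.ne' i j
    refine ⟨inR_of g2 g3, Al_rs hq hα j hi, inR_of (j := j) ?_ ?_⟩
    · rw [e1, e2, min_sub_sub_right]; linarith
    · rw [e1, e2, max_sub_sub_right]; linarith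
  · rintro k ⟨g1, g2, g3⟩ ⟨j, g4, g5, g6⟩
    exact main4 σ1 D1 k j g1 (by simpa using g2) (by simpa using g3) (by simpa using g4) g5 g6
  · rintro ⟨h1, h2⟩
    rcases main1 σ2 D2 h1 h2 with ⟨j, g1, g2, g3⟩ | ⟨k, g1, g2, g3⟩
    · refine Or.inl ⟨(rs α j i, u - 2 * oS a b v j * cr (dd a b) (G i (nS α j))),
        Al_rs hq hα j hi, (stq_iff hs.ne' hc.ne' i u _).2 ⟨j, ⟨by simpa using g1, g2, g3⟩, rfl⟩⟩
    · exact Or.inr ⟨k, g1, by simpa using g2, by simpa using g3⟩
  · intro z z' hz hz'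
    obtain ⟨j, ⟨g1, g2, g3⟩, rfl⟩ := (stq_iff hs.ne' hc.ne' i u _).1 hz
    obtain ⟨j', ⟨g4, g5, g6⟩, rfl⟩ := (stq_iff hs.ne' hc.ne' i u _).1 hz'
    have : j = j' := main2 σ2 D2 j j' (by simpa using g1) g2 g3 (by simpa using g4) g5 g6
    rw [this]
  · intro z hz
    obtain ⟨j, -, rfl⟩ := (stq_iff hs.ne' hc.ne' i u _).1 hz
    exact Al_rs hq hα j hi
  · rintro k ⟨g1, g2, g3⟩ ⟨z, hz⟩
    obtain ⟨j, ⟨g4, g5, g6⟩, -⟩ := (stq_iff hs.ne' hc.ne' i u _).1 hz
    exact main4 σ2 D2 k j g1 (by simpa using g2) (by simpa using g3) (by simpa using g4) g5 g6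

end asm

end Pool.Agent.U505.BM.EX
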